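import Pool.Agent.U173.DN.Defs

/-!
# The numerical Hodge standard conjecture and the denominators of slopes: definitions
-/

set_option autoImplicit false

open CategoryTheory AlgebraicGeometry

universe u v

namespace Pool.Agent.U173.HS

open Pool.Agent.H914 Pool.Agent.H914.VarClass Pool.Agent.H914.VarClass.Obj
  Pool.Agent.H914.WeilCohomology Pool.Agent.TH125.Gal Pool.Agent.U173.PT Pool.Agent.U173.PQ
  Pool.Agent.U173.DN

variable {k : Type u} [Field k] {𝒱 : VarClass k}

/-- The cycle `z` of codimension `j` is numerically equivalent to zero: its intersection numbers with all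
cycles of the complementary codimension are zero. -/
def NumZero (ops : CycleOps 𝒱) (X : 𝒱.Obj) (j : ℕ) (z : X.Cycles) : Prop :=
  ∀ i, j + i = X.dim → ∀ w, X.IsCyc i w → X.V.degCycle (ops.mul z w) = 0

/-- The cycles `z` and `z'` of codimension `j` are numerically equivalent. -/
def NumEquiv (ops : CycleOps 𝒱) (X : 𝒱.Obj) (j : ℕ) (z z' : X.Cycles) : Prop :=
  ∀ i, j + i = X.dim → ∀ w, X.IsCyc i w →
    X.V.degCycle (ops.mul z w) = X.V.degCycle (ops.mul z' w)

/-- The numerical Hodge standard conjecture for the variety `X` of dimension `g` and the divisor `L`: for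
`2 n ≤ g` and every cycle `z` of codimension `n` such that `z · L ^ (g - 2 n + 1)` is numerically
equivalent to zero and `z` is not, the number `(-1) ^ n (z · z · L ^ (g - 2 n))` is positive. -/
def NumericalHodge (ops : CycleOps 𝒱) (X : 𝒱.Obj) (L : X.Cycles) : Prop :=
  ∀ n, 2 * n ≤ X.dim → ∀ z, X.IsCyc n z →
    NumZero ops X (n + (X.dim - 2 * n + 1)) (divPow ops L (X.dim - 2 * n + 1) z) →
    ¬ NumZero ops X n z →
    0 < (-1 : ℚ) ^ n * X.V.degCycle (ops.mul z (divPow ops L (X.dim - 2 * n) z))

/-- The divisor `C` on `X × Y` is numerically equivalent to `L × Y + X × M`. -/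
def IsSum (ops : CycleOps 𝒱) {X Y : 𝒱.Obj} (C : (X.prod Y).Cycles) (L : X.Cycles)
    (M : Y.Cycles) : Prop :=
  NumEquiv ops (X.prod Y) 1 C (ops.pull (fst X Y) L + ops.pull (snd X Y) M)

/-- Every cycle on `X × Y` is numerically equivalent to a sum of cycles `x × y`. -/
def CyclesAreProducts (ops : CycleOps 𝒱) (X Y : 𝒱.Obj) : Prop :=
  ∀ c z, (X.prod Y).IsCyc c z → ∃ l : List (X.prod Y).Cycles,
    NumEquiv ops (X.prod Y) c z l.sum ∧ ∀ w ∈ l, ∃ i j x y, i + j = c ∧ X.IsCyc i x ∧
      Y.IsCyc j y ∧ w = ops.mul (ops.pull (fst X Y) x) (ops.pull (snd X Y) y)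

/-- Known properties of the ample divisors on projective varieties (with rational points): they exist;
theorem of hard Lefschetz; `L ^ g > 0`; and for divisors `L`, `M` and `C` on `X`, `Y` and `X × Y` such that `C`
is numerically equivalent to `L × Y + X × M` the divisor `C` is ample if and only if `L` and `M` are. -/
structure IsAmple {ops : CycleOps 𝒱} (W : WeilCohomology.{u, v} ops)
    (ample : ∀ X : 𝒱.Obj, Set X.Cycles) : Prop where
  exists_ample : ∀ X : 𝒱.Obj, (ample X).Nonempty
  divisor : ∀ X : 𝒱.Obj, ∀ L ∈ ample X, X.IsCyc 1 L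
  lefschetz : ∀ X : 𝒱.Obj, ∀ L ∈ ample X, HardLefschetz W X L
  degree : ∀ X : 𝒱.Obj, ∀ L ∈ ample X, 0 < X.V.degCycle (divPow ops L X.dim X.V.fundCycle)
  product : ∀ (X Y : 𝒱.Obj) (C : (X.prod Y).Cycles) (L : X.Cycles) (M : Y.Cycles),
    (X.prod Y).IsCyc 1 C → X.IsCyc 1 L → Y.IsCyc 1 M → IsSum ops C L M →
    (C ∈ ample (X.prod Y) ↔ L ∈ ample X ∧ M ∈ ample Y)

/-- The numerical Hodge standard conjecture for `X`: for all ample divisors on `X`. -/
def HodgeConjecture (ops : CycleOps 𝒱) (ample : ∀ X : 𝒱.Obj, Set X.Cycles) (X : 𝒱.Obj) : Prop :=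
  ∀ L ∈ ample X, NumericalHodge ops X L

/-- Numerical and homological equivalence coincide on `X`. -/
def NumEqHom {ops : CycleOps 𝒱} (W : WeilCohomology.{u, v} ops) (X : 𝒱.Obj) : Prop :=
  ∀ j z, X.IsCyc j z → NumZero ops X j z → W.cl X z = 0

variable {ops : CycleOps 𝒱} {W : WeilCohomology.{u, 0} ops} {Γ : Type} [Group Γ]

/-- The variety `B` is the product of the `Y j`, `j` in the list `l'`, and of `Z`. The `X i` and `B` are in a
class of varieties with Galois actions which is closed under products. For each `i` and each place `v` in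
the set `P i`, the number `R i v` is a power of a prime number; the cohomology of `X i` is the direct sum
of the span of the Tate classes and a subspace as in `SplitsAct`; and the varieties `X j` with indices
`j` behind `i` in the list `l`, the `Y j`, `j` in the list `l'`, and `Z` avoid the denominator `R i v` at `v`.
The Tate conjecture holds for the `X i`, and numerical and homological equivalence coincide on the `X i`
and on `B`. -/
structure IsHodgeSystem {I I' : Type} (χ : Γ →* W.Kˣ) (G : Set (GVar W Γ)) (P : I → Set (Place Γ))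
    (R : I → Place Γ → ℕ) (X : I → GVar W Γ) (Y : I' → GVar W Γ) (Z : GVar W Γ) (l : List I)
    (l' : List I') (B : GVar W Γ) : Prop where
  galois : GaloisClass χ G
  mem : ∀ i, X i ∈ G
  mem_base : B ∈ G
  product : IsProductOf Y Z l' B
  pos : ∀ i, ∀ v ∈ P i, 0 < v.m
  character : ∀ i, ∀ v ∈ P i, ((χ v.σ : W.Kˣ) : W.K) = (v.p : W.K) ^ v.m
  prime : ∀ i, ∀ v ∈ P i, IsPrimePow (R i v)
  splits : ∀ i, SplitsAct (P i) (R i) (X i).act (tateSpan χ (W.gr (X i).X) (X i).act)
  pairs : l.Pairwise fun i j => ∀ v ∈ P i, Avoids v (R i v) (X j)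
  others : ∀ i, ∀ j ∈ l', ∀ v ∈ P i, Avoids v (R i v) (Y j)
  base : ∀ i, ∀ v ∈ P i, Avoids v (R i v) Z
  tate : ∀ i ∈ l, TateConjecture χ (X i)
  equivalence : ∀ i ∈ l, NumEqHom W (X i).X
  equivalence_base : NumEqHom W B.X

end Pool.Agent.U173.HS
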