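import Pool.Agent.U173.HS.Defs
import Pool.Agent.U173.DN.Main
import Pool.Agent.N876.FL.Geo3

/-!
# The numerical Hodge standard conjecture and the denominators of slopes
-/

set_option autoImplicit false
set_option linter.unusedSectionVars false

open CategoryTheory AlgebraicGeometry
open scoped TensorProduct

universe u

namespace Pool.Agent.U173.HS

open Pool.Agent.H914 Pool.Agent.H914.VarClass Pool.Agent.H914.VarClass.Obj
  Pool.Agent.H914.WeilCohomology Pool.Agent.H281R3.HT Pool.Agent.W552 Pool.Agent.TH125.Gal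
  Pool.Agent.TH132.A Pool.Agent.U173.PT Pool.Agent.U173.PQ Pool.Agent.U173.DN

variable {k : Type u} [Field k] {𝒱 : VarClass k} {ops : CycleOps 𝒱}
  {W : WeilCohomology.{u, 0} ops}

section num

variable {X : 𝒱.Obj}

/-- homologically trivial cycles are numerically trivial -/
theorem numZero_of_cl {j : ℕ} {z : X.Cycles} (hz : X.IsCyc j z) (h : W.cl X z = 0) :
    NumZero ops X j z := by
  intro i hi w hw
  have h1 : X.IsCyc X.dim (ops.mul z w) := by
    have := ops.mul_mem hz hw
    rwa [hi] at this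
  have h2 := W.tr_cl h1
  rw [W.cl_mul, h, zero_mul, map_zero] at h2
  rw [← Rat.cast_zero] at h2
  exact (Rat.cast_injective (α := W.K) h2).symm

theorem homEqNum_of (h : NumEqHom W X) : HomEqNum W X := by
  intro j hj z hz hnum
  refine h j z hz fun i hi w hw => hnum w ?_
  have e : i = X.dim - j := by omega
  rwa [← e]

/-- numerically trivial cycles are homologically trivial -/
theorem numEqHom_of (hD : HomEqNum W X) : NumEqHom W X := by
  intro j z hz h
  by_cases hj : j ≤ X.dim
  · exact hD j hj z hz fun w hw => h (X.dim - j) (by omega) w hw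
  · have h1 := W.cl_mem hz
    rw [W.gr_eq_bot X (2 * j) (by omega)] at h1
    exact (Submodule.mem_bot _).1 h1

/-- homologically equivalent cycles are numerically equivalent -/
theorem numEquiv_of_cl {j : ℕ} {z z' : X.Cycles} (hz : X.IsCyc j z) (hz' : X.IsCyc j z')
    (h : W.cl X z = W.cl X z') : NumEquiv ops X j z z' := by
  intro i hi w hw
  have h1 : X.IsCyc X.dim (ops.mul z w) := by
    have := ops.mul_mem hz hw
    rwa [hi] at this
  have h2 : X.IsCyc X.dim (ops.mul z' w) := by
    have := ops.mul_mem hz' hw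
    rwa [hi] at this
  have h3 := W.tr_cl h1
  rw [W.cl_mul, h, ← W.cl_mul, W.tr_cl h2] at h3
  exact (Rat.cast_injective (α := W.K) h3).symm

/-- numerically equivalent cycles are homologically equivalent -/
theorem cl_of_numEquiv (hD : NumEqHom W X) {j : ℕ} {z z' : X.Cycles} (hz : X.IsCyc j z)
    (hz' : X.IsCyc j z') (h : NumEquiv ops X j z z') : W.cl X z = W.cl X z' := by
  have hd : X.IsCyc j (z + (-1 : ℚ) • z') := hz.add (hz'.smul _)
  have hcl : W.cl X (z + (-1 : ℚ) • z') = W.cl X z - W.cl X z' := by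
    rw [map_add, W.cl_smul, Rat.cast_neg, Rat.cast_one, neg_one_smul, sub_eq_add_neg]
  rw [← sub_eq_zero, ← hcl]
  refine hD j _ hd fun i hi w hw => ?_
  have h0 : X.IsCyc X.dim (ops.mul (z + (-1 : ℚ) • z') w) := by
    have := ops.mul_mem hd hw
    rwa [hi] at this
  have h1 : X.IsCyc X.dim (ops.mul z w) := by
    have := ops.mul_mem hz hw
    rwa [hi] at this
  have h2 : X.IsCyc X.dim (ops.mul z' w) := by
    have := ops.mul_mem hz' hw
    rwa [hi] at this
  have h3 := W.tr_cl h0
  rw [W.cl_mul, hcl, sub_mul, map_sub, ← W.cl_mul, ← W.cl_mul, W.tr_cl h1, W.tr_cl h2,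
    h i hi w hw, sub_self, ← Rat.cast_zero] at h3
  exact (Rat.cast_injective (α := W.K) h3).symm

theorem numericalHodge_iff (hD : NumEqHom W X) {L : X.Cycles} (hL : X.IsCyc 1 L) :
    NumericalHodge ops X L ↔ HodgeType W X L := by
  constructor
  · intro h n hn z hz hp h0
    exact h n hn z hz (numZero_of_cl (divPow_mem hL _ hz) hp)
      fun h1 => h0 (hD n z hz h1)
  · intro h n hn z hz hp h0
    exact h n hn z hz (hD _ _ (divPow_mem hL _ hz) hp)
      fun h1 => h0 (numZero_of_cl hz h1)

/-- the conjecture depends only on the class of the divisor -/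
theorem hodgeType_congr {L L' : X.Cycles} (hL : X.IsCyc 1 L) (hL' : X.IsCyc 1 L')
    (h : W.cl X L = W.cl X L') (hH : HodgeType W X L) : HodgeType W X L' := by
  intro j hj z hz hp h0
  have h1 : W.cl X (divPow ops L (X.dim - 2 * j + 1) z) = 0 := by
    rw [cl_divPow, h, ← cl_divPow]
    exact hp
  have h2 := hH j hj z hz h1 h0
  have h3 : X.V.degCycle (ops.mul z (divPow ops L (X.dim - 2 * j) z)) =
      X.V.degCycle (ops.mul z (divPow ops L' (X.dim - 2 * j) z)) := by
    have e1 : X.IsCyc X.dim (ops.mul z (divPow ops L (X.dim - 2 * j) z)) := by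
      have := ops.mul_mem hz (divPow_mem (ops := ops) hL (X.dim - 2 * j) hz)
      rwa [show j + (j + (X.dim - 2 * j)) = X.dim by omega] at this
    have e2 : X.IsCyc X.dim (ops.mul z (divPow ops L' (X.dim - 2 * j) z)) := by
      have := ops.mul_mem hz (divPow_mem (ops := ops) hL' (X.dim - 2 * j) hz)
      rwa [show j + (j + (X.dim - 2 * j)) = X.dim by omega] at this
    have e3 := W.tr_cl e1
    rw [W.cl_mul, cl_divPow, h, ← cl_divPow, ← W.cl_mul, W.tr_cl e2] at e3
    exact (Rat.cast_injective (α := W.K) e3).symm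
  rwa [← h3]

end num

section prod

variable {X U : 𝒱.Obj} {D : X.Cycles} {B : U.Cycles} {f : Module.End W.K (W.H X)}
  {g : Module.End W.K (W.H U)}

/-- The value of the form on the unit is positive. -/
theorem bf_one' (tf : Lw W X D f) (h0 : 0 < X.V.degCycle (divPow ops D X.dim X.V.fundCycle)) :
    ∃ q : ℚ, 0 < q ∧ bf W X D f 1 1 = q := by
  have hp : W.cl X (divPow ops D (X.dim - 2 * 0 + 1) X.V.fundCycle) = 0 := by
    rw [cl_divPow, W.cl_fund]
    exact e_pow_zero tf.hD (i := 0) (by omega) (W.one_mem X)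
  have h2 := tf.form_prim (j := 0) (by omega) X.V.fundCycle_mem hp
  have h3 : 0 < X.V.degCycle (ops.mul X.V.fundCycle (divPow ops D (X.dim - 2 * 0) X.V.fundCycle)) := by
    have e1 : X.IsCyc X.dim (divPow ops D X.dim X.V.fundCycle) := by
      have := divPow_mem (ops := ops) tf.hD X.dim X.V.fundCycle_mem
      rwa [zero_add] at this
    have e2 : X.IsCyc X.dim (ops.mul X.V.fundCycle (divPow ops D (X.dim - 2 * 0) X.V.fundCycle)) := by
      have := ops.mul_mem X.V.fundCycle_mem e1
      rwa [zero_add] at this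
    have e3 := W.tr_cl e1
    have e4 := W.tr_cl e2
    rw [W.cl_mul, W.cl_fund, one_mul] at e4
    rw [Nat.mul_zero, Nat.sub_zero] at e4 ⊢
    rw [e3] at e4
    rw [← Rat.cast_injective (α := W.K) e4]
    exact h0
  rw [W.cl_fund] at h2
  refine ⟨_, ?_, h2⟩
  rw [pow_zero, one_mul]
  exact mul_pos (by positivity) h3

/-- **The conjecture of Hodge type for the product implies it for the second factor.** -/
theorem hodge_right (tf : Lw W X D f) (tg : Lw W U B g)
    (hX : 0 < X.V.degCycle (divPow ops D X.dim X.V.fundCycle)) (h1 : (1 : W.H X) ≠ 0)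
    (hH : HodgeType W (X.prod U) (ops.pull (fst X U) D + ops.pull (snd X U) B)) :
    HodgeType W U B := by
  intro j hj z hz hprim hz0
  have F := tf.prod tg
  set y := ops.pull (snd X U) z with hy
  have hyc : (X.prod U).IsCyc j y := ops.pull_mem _ hz
  have hycl : W.cl (X.prod U) y = ext W (1 : W.H X) (W.cl U z) := by
    rw [hy, W.cl_pull, ext, map_one, one_mul]
  have hj' : 2 * j ≤ (X.prod U).dim := by rw [dim_prod]; omega
  have hDE : W.cl (X.prod U) (ops.pull (fst X U) D + ops.pull (snd X U) B) =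
      W.map (fst X U) (W.cl X D) + W.map (snd X U) (W.cl U B) := by
    rw [map_add, W.cl_pull, W.cl_pull]
  have hyp : W.cl (X.prod U) (divPow ops (ops.pull (fst X U) D + ops.pull (snd X U) B)
      ((X.prod U).dim - 2 * j + 1) y) = 0 := by
    rw [cl_divPow, hycl, theta_pow tg.hD hDE]
    refine Finset.sum_eq_zero fun i hi => ?_
    have hi' := Finset.mem_range.1 hi
    rw [dim_prod] at hi' ⊢
    by_cases h2 : X.dim < i
    · rw [e_pow_zero (W := W) tf.hD (i := 0) (by omega) (W.one_mem X)]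
      simp [ext]
    · rw [show X.dim + U.dim - 2 * j + 1 - i = (X.dim - i) + (U.dim - 2 * j + 1) by omega,
        pow_add, Module.End.mul_apply, ← cl_divPow, hprim, map_zero]
      simp [ext]
  have hy0 : W.cl (X.prod U) y ≠ 0 := by
    rw [hycl]
    intro h0
    exact hz0 (one_ext_inj h1 h0)
  obtain ⟨q, hq, hq'⟩ := bf_one' tf hX
  have h2 := F.form_prim hj' hyc hyp
  have h3 := hH j hj' y hyc hyp hy0
  rw [hycl, tf.bf_ext tg, hq', tg.form_prim hj hz hprim, ← Rat.cast_mul] at h2
  have h4 := Rat.cast_injective (α := W.K) h2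
  have h5 : 0 < q * ((-1) ^ j * (((U.dim - 2 * j).factorial : ℚ)⁻¹ *
        U.V.degCycle (ops.mul z (divPow ops B (U.dim - 2 * j) z)))) := by
    rw [h4, mul_left_comm]
    exact mul_pos (by positivity) h3
  have h6 := pos_of_mul_pos_right h5 hq.le
  rw [mul_left_comm] at h6
  exact pos_of_mul_pos_right h6 (by positivity)

/-- **The conjecture of Hodge type for the product implies it for the first factor.** -/
theorem hodge_left (tf : Lw W X D f) (tg : Lw W U B g)
    (hU : 0 < U.V.degCycle (divPow ops B U.dim U.V.fundCycle)) (h1 : (1 : W.H U) ≠ 0)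
    (hH : HodgeType W (X.prod U) (ops.pull (fst X U) D + ops.pull (snd X U) B)) :
    HodgeType W X D := by
  intro j hj z hz hprim hz0
  have F := tf.prod tg
  set y := ops.pull (fst X U) z with hy
  have hyc : (X.prod U).IsCyc j y := ops.pull_mem _ hz
  have hycl : W.cl (X.prod U) y = ext W (W.cl X z) (1 : W.H U) := by
    rw [hy, W.cl_pull, ext, map_one, mul_one]
  have hj' : 2 * j ≤ (X.prod U).dim := by rw [dim_prod]; omega
  have hDE : W.cl (X.prod U) (ops.pull (fst X U) D + ops.pull (snd X U) B) =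
      W.map (fst X U) (W.cl X D) + W.map (snd X U) (W.cl U B) := by
    rw [map_add, W.cl_pull, W.cl_pull]
  have hyp : W.cl (X.prod U) (divPow ops (ops.pull (fst X U) D + ops.pull (snd X U) B)
      ((X.prod U).dim - 2 * j + 1) y) = 0 := by
    rw [cl_divPow, hycl, theta_pow tg.hD hDE]
    refine Finset.sum_eq_zero fun i hi => ?_
    have hi' := Finset.mem_range.1 hi
    rw [dim_prod] at hi' ⊢
    by_cases h2 : i ≤ X.dim - 2 * j
    · rw [e_pow_zero (W := W) tg.hD (m := X.dim + U.dim - 2 * j + 1 - i) (i := 0) (by omega)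
        (W.one_mem U)]
      simp [ext]
    · rw [show i = (i - (X.dim - 2 * j + 1)) + (X.dim - 2 * j + 1) by omega,
        pow_add, Module.End.mul_apply, ← cl_divPow, hprim, map_zero]
      simp [ext]
  have hy0 : W.cl (X.prod U) y ≠ 0 := by
    rw [hycl]
    intro h0
    exact hz0 (ext_one_inj h1 h0)
  obtain ⟨q, hq, hq'⟩ := bf_one' tg hU
  have h2 := F.form_prim hj' hyc hyp
  have h3 := hH j hj' y hyc hyp hy0
  rw [hycl, tf.bf_ext tg, hq', tf.form_prim hj hz hprim, ← Rat.cast_mul] at h2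
  have h4 := Rat.cast_injective (α := W.K) h2
  have h5 : 0 < ((-1) ^ j * (((X.dim - 2 * j).factorial : ℚ)⁻¹ *
        X.V.degCycle (ops.mul z (divPow ops D (X.dim - 2 * j) z)))) * q := by
    rw [h4, mul_left_comm]
    exact mul_pos (by positivity) h3
  have h6 := pos_of_mul_pos_left h5 hq.le
  rw [mul_left_comm] at h6
  exact pos_of_mul_pos_right h6 (by positivity)

/-- **One polarization.** -/
theorem numericalHodge_prod {ample : ∀ X : 𝒱.Obj, Set X.Cycles} (hA : IsAmple W ample)
    (hS : ∀ z, AS W (X.prod U) z → z ∈ tens W X U) (hDX : NumEqHom W X) (hDU : NumEqHom W U)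
    (h1X : (1 : W.H X) ≠ 0) (h1U : (1 : W.H U) ≠ 0) {C : (X.prod U).Cycles}
    (hC : C ∈ ample (X.prod U)) (hDa : D ∈ ample X) (hBa : B ∈ ample U) (hs : IsSum ops C D B) :
    NumericalHodge ops (X.prod U) C ↔ NumericalHodge ops X D ∧ NumericalHodge ops U B := by
  have hDV : NumEqHom W (X.prod U) :=
    numEqHom_of ((homEqNum_prod_iff hS (homEqNum_of hDX) h1X).2 (homEqNum_of hDU))
  have hD := hA.divisor _ _ hDa
  have hB := hA.divisor _ _ hBa
  have hDB : (X.prod U).IsCyc 1 (ops.pull (fst X U) D + ops.pull (snd X U) B) :=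
    SmVar.IsCyc.add (ops.pull_mem _ hD) (ops.pull_mem _ hB)
  have hcl := cl_of_numEquiv hDV (hA.divisor _ _ hC) hDB hs
  obtain ⟨f, F, hf⟩ := exists_lw hD (hA.lefschetz _ _ hDa)
  obtain ⟨g, F', hg⟩ := exists_lw hB (hA.lefschetz _ _ hBa)
  rw [numericalHodge_iff hDV (hA.divisor _ _ hC), numericalHodge_iff hDX hD,
    numericalHodge_iff hDU hB]
  constructor
  · intro h
    have h2 := hodgeType_congr (hA.divisor _ _ hC) hDB hcl h
    exact ⟨hodge_left F F' (hA.degree _ _ hBa) h1U h2, hodge_right F F' (hA.degree _ _ hDa) h1X h2⟩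
  · rintro ⟨hX, hU⟩
    have hst : Stable W X f := stable_of_lefschetzA F.hD F.sl2
      (lefschetzA_of_D F.hD (hA.lefschetz _ _ hDa) (homEqNum_of hDX))
    exact hodgeType_congr hDB (hA.divisor _ _ hC) hcl.symm
      (hodge_prod_of hS F hf (hA.lefschetz _ _ hDa) hst hX F' hg hU)

/-- the ample divisors on a product -/
theorem ample_prod {ample : ∀ X : 𝒱.Obj, Set X.Cycles} (hA : IsAmple W ample)
    (hS : ∀ z, AS W (X.prod U) z → z ∈ tens W X U) {C : (X.prod U).Cycles}
    (hC : C ∈ ample (X.prod U)) : ∃ D ∈ ample X, ∃ B ∈ ample U, IsSum ops C D B := by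
  have hC1 := hA.divisor _ _ hC
  obtain ⟨D, B, hD, hB, hDB⟩ := div_split (clSplit_of_tens hS) hC1
  have hcl : W.cl (X.prod U) C = W.cl (X.prod U) (ops.pull (fst X U) D +
      ops.pull (snd X U) B) := by
    rw [hDB, map_add, W.cl_pull, W.cl_pull]
  have hs : IsSum ops C D B := numEquiv_of_cl hC1
    (SmVar.IsCyc.add (ops.pull_mem _ hD) (ops.pull_mem _ hB)) hcl
  obtain ⟨hDa, hBa⟩ := (hA.product X U C D B hC1 hD hB hs).1 hC
  exact ⟨D, hDa, B, hBa, hs⟩

/-- **The numerical Hodge standard conjecture for a product.** -/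
theorem conjecture_prod {ample : ∀ X : 𝒱.Obj, Set X.Cycles} (hA : IsAmple W ample)
    (hS : ∀ z, AS W (X.prod U) z → z ∈ tens W X U) (hDX : NumEqHom W X) (hDU : NumEqHom W U)
    (h1X : (1 : W.H X) ≠ 0) (h1U : (1 : W.H U) ≠ 0) :
    HodgeConjecture ops ample (X.prod U) ↔
      HodgeConjecture ops ample X ∧ HodgeConjecture ops ample U := by
  constructor
  · intro h
    have key : ∀ D ∈ ample X, ∀ B ∈ ample U, NumericalHodge ops X D ∧ NumericalHodge ops U B := by
      intro D hD B hB
      have hD1 := hA.divisor _ _ hD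
      have hB1 := hA.divisor _ _ hB
      have hs : IsSum ops (ops.pull (fst X U) D + ops.pull (snd X U) B) D B := fun _ _ _ _ => rfl
      have hC := (hA.product X U _ D B (SmVar.IsCyc.add (ops.pull_mem _ hD1)
        (ops.pull_mem _ hB1)) hD1 hB1 hs).2 ⟨hD, hB⟩
      exact (numericalHodge_prod hA hS hDX hDU h1X h1U hC hD hB hs).1 (h _ hC)
    obtain ⟨D₀, hD₀⟩ := hA.exists_ample X
    obtain ⟨B₀, hB₀⟩ := hA.exists_ample U
    exact ⟨fun D hD => (key D hD B₀ hB₀).1, fun B hB => (key D₀ hD₀ B hB).2⟩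
  · rintro ⟨hX, hU⟩ C hC
    obtain ⟨D, hD, B, hB, hs⟩ := ample_prod hA hS hC
    exact (numericalHodge_prod hA hS hDX hDU h1X h1U hC hD hB hs).2 ⟨hX D hD, hU B hB⟩

/-- cycles on a product -/
theorem cyclesAreProducts (hS : ∀ z, AS W (X.prod U) z → z ∈ tens W X U) :
    CyclesAreProducts ops X U := by
  intro c z hz
  obtain ⟨l, hl, hl'⟩ := (clSplit_of_tens hS).cyclesSplit c z hz
  refine ⟨l, numEquiv_of_cl hz ?_ hl, hl'⟩
  have h1 : ∀ w ∈ l, (X.prod U).IsCyc c w := by
    intro w hw
    obtain ⟨i, j, x, y, hij, hx, hy, rfl⟩ := hl' w hw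
    have := ops.mul_mem (ops.pull_mem (fst X U) hx) (ops.pull_mem (snd X U) hy)
    rwa [hij] at this
  clear hl hl'
  induction l with
  | nil => rw [List.sum_nil]; exact SmVar.IsCyc.zero _ _
  | cons w l ih =>
    rw [List.sum_cons]
    exact SmVar.IsCyc.add (h1 w List.mem_cons_self)
      (ih fun w' hw' => h1 w' (List.mem_cons_of_mem _ hw'))

/-- ample divisors give points -/
theorem hasPoint_of_ample {ample : ∀ X : 𝒱.Obj, Set X.Cycles} (hA : IsAmple W ample)
    (X : 𝒱.Obj) : HasPoint W X := by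
  obtain ⟨L, hL⟩ := hA.exists_ample X
  have h1 := divPow_mem (ops := ops) (hA.divisor _ _ hL) X.dim X.V.fundCycle_mem
  rw [zero_add] at h1
  refine ⟨_, ⟨_, h1, rfl⟩, ?_⟩
  rw [W.tr_cl h1]
  exact Rat.cast_ne_zero.2 (hA.degree _ _ hL).ne'

end prod

section system

variable {Γ : Type} [Group Γ] {χ : Γ →* W.Kˣ}

theorem one_ne_of_point {A : 𝒱.Obj} (h : HasPoint W A) : (1 : W.H A) ≠ 0 := by
  obtain ⟨a, -, ha0⟩ := h
  intro h1
  apply ha0
  rw [← mul_one a, h1, mul_zero, map_zero]

/-- another action on the product -/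
theorem exists_action {G : Set (GVar W Γ)} (hG : GaloisClass χ G) {I : Type} {X : I → GVar W Γ}
    (hX : ∀ i, X i ∈ G) {B : GVar W Γ} (hB : B ∈ G) {l : List I} {V : GVar W Γ}
    (hV : Pool.Agent.U173.PT.IsProductOf X B l V) :
    ∃ V' ∈ G, V'.X = V.X ∧ Pool.Agent.U173.PT.IsProductOf X B l V' := by
  induction hV with
  | nil => exact ⟨B, hB, rfl, .nil⟩
  | @cons i l C V hC hV ih =>
    obtain ⟨C', hC', hCX, hCP⟩ := ih
    obtain ⟨V', hV', hVP⟩ := hG.prod _ (hX i) _ hC'
    refine ⟨V', hV', ?_, .cons hCP hVP⟩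
    cases hV
    cases hVP
    change (X i).X.prod C'.X = (X i).X.prod C.X
    rw [hCX]

variable {G : Set (GVar W Γ)} {I I' : Type} {P : I → Set (Place Γ)} {R : I → Place Γ → ℕ}
  {X : I → GVar W Γ} {Y : I' → GVar W Γ} {Z : GVar W Γ} {l : List I} {l' : List I'}
  {B : GVar W Γ}

theorem IsHodgeSystem.system (h : IsHodgeSystem χ G P R X Y Z l l' B)
    {ample : ∀ X : 𝒱.Obj, Set X.Cycles} (hA : IsAmple W ample) :
    IsDenominatorSystem χ P R X Y Z l l' :=
  ⟨fun i => h.galois.galois _ (h.mem i), fun _ => hasPoint_of_ample hA _,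
    fun _ => hasPoint_of_ample hA _, hasPoint_of_ample hA _, h.pos, h.character, h.prime,
    h.splits, h.pairs, h.others, h.base⟩

/-- **The algebraic classes on a product.** -/
theorem tens_of_system [IsAlgClosed W.K] {i : I} {l : List I}
    (h : IsHodgeSystem χ G P R X Y Z (i :: l) l' B) {ample : ∀ X : 𝒱.Obj, Set X.Cycles}
    (hA : IsAmple W ample) {V : GVar W Γ}
    (hV : Pool.Agent.U173.PT.IsProductOf X B l V) :
    ∀ z, AS W ((X i).X.prod V.X) z → z ∈ tens W (X i).X V.X := by
  obtain ⟨V', hV', hVX, hVP⟩ := exists_action h.galois h.mem h.mem_base hV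
  rw [← hVX]
  intro z hz
  refine mem_tens (homEqNum_of (h.equivalence i List.mem_cons_self)) hz ?_
  obtain ⟨C, hC, hCP⟩ := h.galois.prod _ (h.mem i) _ hV'
  obtain ⟨υ, h1, h2⟩ := hCP
  refine AS.ind (p := fun z => z ∈ Submodule.span W.K {w | ∃ x y, AS W (X i).X x ∧
    w = ext W x y}) ?_ (fun x y hx hy => Submodule.add_mem _ hx hy) hz
  rintro c x hx
  have h3 : IsTateAct χ (W.gr ((X i).X.prod V'.X)) υ c x :=
    ⟨alg_gr hx, (h.galois.galois _ hC).cl_fix c x hx⟩
  have h4 := (h.system hA).areProducts h.product hVP υ h1 h2 c x h3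
  refine Submodule.span_le.2 ?_ h4
  rintro _ ⟨e, he, a, ha, b, hb, rfl⟩
  have h5 : a ∈ Submodule.span W.K (algClasses W (X i).X e) :=
    h.tate i List.mem_cons_self e a ha.1 ha.2
  change W.map (fst (X i).X V'.X) a * W.map (snd (X i).X V'.X) b ∈ Submodule.span W.K _
  clear ha h4 h3
  induction h5 using Submodule.span_induction with
  | mem a ha => exact Submodule.subset_span ⟨a, b, AS.of ha, rfl⟩
  | zero => rw [map_zero, zero_mul]; exact Submodule.zero_mem _
  | add a a' _ _ ha ha' => rw [map_add, add_mul]; exact Submodule.add_mem _ ha ha'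
  | smul r a _ ha => rw [map_smul, smul_mul_assoc]; exact Submodule.smul_mem _ _ ha

theorem IsHodgeSystem.tail {i : I} {l : List I} (h : IsHodgeSystem χ G P R X Y Z (i :: l) l' B) :
    IsHodgeSystem χ G P R X Y Z l l' B :=
  ⟨h.galois, h.mem, h.mem_base, h.product, h.pos, h.character, h.prime, h.splits,
    (List.pairwise_cons.1 h.pairs).2, h.others, h.base,
    fun j hj => h.tate j (List.mem_cons_of_mem _ hj),
    fun j hj => h.equivalence j (List.mem_cons_of_mem _ hj), h.equivalence_base⟩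

theorem IsHodgeSystem.numEqHom [IsAlgClosed W.K] {l : List I}
    (h : IsHodgeSystem χ G P R X Y Z l l' B) {ample : ∀ X : 𝒱.Obj, Set X.Cycles}
    (hA : IsAmple W ample) {V : GVar W Γ}
    (hV : Pool.Agent.U173.PT.IsProductOf X B l V) : NumEqHom W V.X := by
  induction hV with
  | nil => exact h.equivalence_base
  | @cons i l C V hC hV ih =>
    have h1 := tens_of_system h hA hC
    cases hV
    exact numEqHom_of ((homEqNum_prod_iff h1 (homEqNum_of (h.equivalence i List.mem_cons_self))
      (one_ne_of_point (hasPoint_of_ample hA _))).2 (homEqNum_of (ih h.tail)))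

/-- **The numerical Hodge standard conjecture for products.** -/
theorem IsHodgeSystem.conjecture [IsAlgClosed W.K] {l : List I}
    (h : IsHodgeSystem χ G P R X Y Z l l' B) {ample : ∀ X : 𝒱.Obj, Set X.Cycles}
    (hA : IsAmple W ample) {V : GVar W Γ} (hV : Pool.Agent.U173.PT.IsProductOf X B l V) :
    HodgeConjecture ops ample V.X ↔
      (∀ i ∈ l, HodgeConjecture ops ample (X i).X) ∧ HodgeConjecture ops ample B.X := by
  induction hV with
  | nil => simp
  | @cons i l C V hC hV ih =>
    have h1 := tens_of_system h hA hC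
    have h2 : NumEqHom W C.X := h.tail.numEqHom hA hC
    cases hV
    rw [List.forall_mem_cons, and_assoc, ← ih h.tail]
    exact conjecture_prod hA h1 (h.equivalence i List.mem_cons_self) h2
      (one_ne_of_point (hasPoint_of_ample hA _)) (one_ne_of_point (hasPoint_of_ample hA _))

/-- **The first factor and the product of the others.** -/
theorem IsHodgeSystem.first [IsAlgClosed W.K] {i : I} {l : List I}
    (h : IsHodgeSystem χ G P R X Y Z (i :: l) l' B) {ample : ∀ X : 𝒱.Obj, Set X.Cycles}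
    (hA : IsAmple W ample) {V : GVar W Γ} (hV : Pool.Agent.U173.PT.IsProductOf X B l V) :
    CyclesAreProducts ops (X i).X V.X ∧ ∀ C ∈ ample ((X i).X.prod V.X), ∃ L ∈ ample (X i).X,
      ∃ M ∈ ample V.X, IsSum ops C L M ∧ (NumericalHodge ops ((X i).X.prod V.X) C ↔
        NumericalHodge ops (X i).X L ∧ NumericalHodge ops V.X M) := by
  have h1 := tens_of_system h hA hV
  refine ⟨cyclesAreProducts h1, fun C hC => ?_⟩
  obtain ⟨L, hL, M, hM, hs⟩ := ample_prod hA h1 hC
  exact ⟨L, hL, M, hM, hs, numericalHodge_prod hA h1 (h.equivalence i List.mem_cons_self)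
    (h.tail.numEqHom hA hV) (one_ne_of_point (hasPoint_of_ample hA _))
    (one_ne_of_point (hasPoint_of_ample hA _)) hC hL hM hs⟩

end system

end Pool.Agent.U173.HS
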